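import Pool.Agent.Helper83.D71.Core

/-!
# MP_d71e86_ag, block G2 : properness of models
-/

open AlgebraicGeometry CategoryTheory CategoryTheory.Limits

universe u

namespace Helper50.D71

section Proper

variable {k : Type u} [Field k] {K : Type u} [Field K] [Algebra k K]
variable {ι : Type} {A : ι → Subalgebra k K} {X : Scheme.{u}} {f : X ⟶ Spec (.of k)}
  {c : ∀ i, Spec (.of (A i)) ⟶ X}

/-- the open cover of a model by its charts. -/
noncomputable def IsModel.openCover (hM : IsModel A X f c) : X.OpenCover where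
  I₀ := ι
  X i := Spec (.of (A i))
  f := c
  mem₀ := by
    rw [Scheme.presieve₀_mem_precoverage_iff]
    exact ⟨hM.cover, hM.isOpenImmersion⟩

lemma IsModel.locallyOfFiniteType (hM : IsModel A X f c) (hFG : ∀ i, (A i).FG) :
    LocallyOfFiniteType f := by
  have hloc : IsZariskiLocalAtSource (P := @LocallyOfFiniteType.{u}) :=
    HasRingHomProperty.instIsZariskiLocalAtSource
  have h : ∀ i : ι, LocallyOfFiniteType (c i ≫ f) := by
    intro i
    rw [hM.over_base, HasRingHomProperty.Spec_iff (P := @LocallyOfFiniteType)]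
    have := (Subalgebra.fg_iff_finiteType _).mp (hFG i)
    exact (RingHom.finiteType_algebraMap).mpr this
  exact (IsZariskiLocalAtSource.iff_of_openCover (P := @LocallyOfFiniteType) (f := f)
    hM.openCover).mpr h

lemma IsModel.compactSpace [Finite ι] (hM : IsModel A X f c) : CompactSpace X := by
  have : Finite hM.openCover.I₀ := ‹Finite ι›
  have : ∀ i, CompactSpace (hM.openCover.X i) := fun i =>
    inferInstanceAs (CompactSpace (Spec (.of (A i))))
  exact hM.openCover.compactSpace

lemma IsModel.quasiCompact [Finite ι] (hM : IsModel A X f c) : QuasiCompact f := by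
  rw [quasiCompact_iff_compactSpace]
  exact hM.compactSpace

lemma IsModel.quasiSeparated (hM : IsModel A X f c) (hFG : ∀ i, (A i).FG) :
    QuasiSeparated f := by
  rw [quasiSeparated_iff_quasiSeparatedSpace]
  have := hM.locallyOfFiniteType hFG
  have := LocallyOfFiniteType.isLocallyNoetherian f
  infer_instance

/-- morphisms from the spectrum of a local ring factor through a chart. -/
lemma IsModel.exists_factor (hM : IsModel A X f c) {R : Type u} [CommRing R] [IsLocalRing R]
    (g : Spec (.of R) ⟶ X) :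
    ∃ (i : ι) (φ : A i →+* R), g = Spec.map (CommRingCat.ofHom φ) ≫ c i := by
  obtain ⟨i, hi⟩ := hM.cover (g (IsLocalRing.closedPoint R))
  have := hM.isOpenImmersion i
  have hr : Set.range g ⊆ Set.range (c i) := by
    rintro _ ⟨z, rfl⟩
    have h1 : z ⤳ IsLocalRing.closedPoint R := IsLocalRing.specializes_closedPoint (R := R) z
    have h2 : g z ⤳ g (IsLocalRing.closedPoint R) := h1.map g.continuous
    exact h2.mem_open (c i).opensRange.2 hi
  obtain ⟨φ, hφ⟩ := Spec.map_surjective (IsOpenImmersion.lift (c i) g hr)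
  refine ⟨i, φ.hom, ?_⟩
  have h3 := IsOpenImmersion.lift_fac (c i) g hr
  rw [← hφ] at h3
  exact h3.symm

/-- two homomorphisms defining the same morphism to `X` come from the intersection. -/
lemma IsModel.exists_sup_hom (hM : IsModel A X f c) {i j : ι} (hG : Good (A i) (A j))
    {S : Type u} [CommRing S]
    (φ : A i →+* S) (ψ : A j →+* S)
    (h : Spec.map (CommRingCat.ofHom φ) ≫ c i = Spec.map (CommRingCat.ofHom ψ) ≫ c j) :
    ∃ χ : ↥(A i ⊔ A j) →+* S,
      (∀ a : A i, χ (Subalgebra.inclusion le_sup_left a) = φ a) ∧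
      (∀ b : A j, χ (Subalgebra.inclusion le_sup_right b) = ψ b) := by
  have hi := hM.isOpenImmersion i
  have hj := hM.isOpenImmersion j
  have hs := isOpenImmersion_specIncl hG.1 (le_sup_left : A i ≤ A i ⊔ A j)
  have hr : Set.range (Spec.map (CommRingCat.ofHom φ) ≫ c i) ⊆
      Set.range (specIncl (le_sup_left : A i ≤ A i ⊔ A j) ≫ c i) := by
    rintro _ ⟨z, rfl⟩
    apply hM.inter i j
    refine ⟨⟨Spec.map (CommRingCat.ofHom φ) z, rfl⟩, ?_⟩
    rw [h]
    exact ⟨Spec.map (CommRingCat.ofHom ψ) z, rfl⟩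
  obtain ⟨χ, hχ⟩ := Spec.map_surjective (IsOpenImmersion.lift
    (specIncl (le_sup_left : A i ≤ A i ⊔ A j) ≫ c i) _ hr)
  have h1 := IsOpenImmersion.lift_fac (specIncl (le_sup_left : A i ≤ A i ⊔ A j) ≫ c i) _ hr
  rw [← hχ] at h1
  have h2 : Spec.map χ ≫ specIncl (le_sup_left : A i ≤ A i ⊔ A j) =
      Spec.map (CommRingCat.ofHom φ) := by
    rw [← cancel_mono (c i), Category.assoc, h1]
  have h3 : Spec.map χ ≫ specIncl (le_sup_right : A j ≤ A i ⊔ A j) =
      Spec.map (CommRingCat.ofHom ψ) := by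
    rw [← cancel_mono (c j), Category.assoc, ← hM.compat, h1, h]
  refine ⟨χ.hom, ?_, ?_⟩
  · intro a
    unfold specIncl at h2
    rw [← Spec.map_comp] at h2
    have := Spec.map_injective h2
    have h4 := congrArg (fun g => g.hom a) this
    exact h4
  · intro b
    unfold specIncl at h3
    rw [← Spec.map_comp] at h3
    have := Spec.map_injective h3
    have h4 := congrArg (fun g => g.hom b) this
    exact h4

lemma specMap_specIncl {B C : Subalgebra k K} (h : B ≤ C) {S : Type u} [CommRing S]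
    (χ : C →+* S) (φ : B →+* S) (hφ : ∀ b : B, χ (Subalgebra.inclusion h b) = φ b) :
    Spec.map (CommRingCat.ofHom χ) ≫ specIncl h = Spec.map (CommRingCat.ofHom φ) := by
  unfold specIncl
  rw [← Spec.map_comp]
  congr 1
  ext b
  exact hφ b

/-- **G2** : a model is proper if every valuation ring contains a chart. -/
theorem IsModel.isProper [Finite ι] (hM : IsModel A X f c) (hG : ∀ i j, Good (A i) (A j))
    (hFG : ∀ i, (A i).FG) (_hfrac : ∀ i, IsFractionRing (A i) K)
    (hV : ∀ V : ValuationSubring K, (∀ r : k, algebraMap k K r ∈ V) → ∃ i, ∀ x ∈ A i, x ∈ V) :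
    IsProper f := by
  have := hM.quasiCompact
  have := hM.quasiSeparated hFG
  have := hM.locallyOfFiniteType hFG
  apply IsProper.of_valuativeCriterion
  rw [ValuativeCriterion.iff]
  constructor
  · -- existence
    rintro ⟨R, L, i₁, i₂, ⟨w⟩⟩
    obtain ⟨i, γ, rfl⟩ := hM.exists_factor (R := L) i₁
    obtain ⟨κ, rfl⟩ := Spec.map_surjective i₂
    have h1 : ∀ r : k, γ (algebraMap k (A i) r) = algebraMap R L (κ.hom r) := by
      rw [Category.assoc, hM.over_base, ← Spec.map_comp, ← Spec.map_comp] at w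
      have h2 := Spec.map_injective w
      intro r
      exact congrArg (fun g => g.hom r) h2
    obtain ⟨V, hVk, hC, hI⟩ := exists_val (γ := γ) (R := R) κ.hom h1
    obtain ⟨j, hj⟩ := hV V hVk
    obtain ⟨ψ, δ, h2, h3⟩ := core κ.hom h1 V hC hI (A j) hj (hG i j).1
    have h4 : ∀ r : k, δ (algebraMap k (A j) r) = κ.hom r := by
      intro r
      apply IsFractionRing.injective R L
      rw [← h3, ← h1, ← h2]
      rfl
    refine ⟨⟨⟨Spec.map (CommRingCat.ofHom δ) ≫ c j, ?_, ?_⟩⟩⟩
    · have e1 : Spec.map (CommRingCat.ofHom (algebraMap R L)) ≫ Spec.map (CommRingCat.ofHom δ) =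
          Spec.map (CommRingCat.ofHom ψ) ≫ specIncl (le_sup_right : A j ≤ A i ⊔ A j) := by
        rw [specMap_specIncl _ ψ ((algebraMap R L).comp δ) h3, ← Spec.map_comp]
        rfl
      have e2 : Spec.map (CommRingCat.ofHom ψ) ≫ specIncl (le_sup_left : A i ≤ A i ⊔ A j) =
          Spec.map (CommRingCat.ofHom γ) := specMap_specIncl _ ψ γ h2
      rw [← Category.assoc, e1, Category.assoc, ← hM.compat, ← Category.assoc, e2]
    · rw [Category.assoc, hM.over_base, ← Spec.map_comp]
      congr 1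
      ext r
      exact h4 r
  · -- uniqueness
    rintro ⟨R, L, i₁, i₂, ⟨w⟩⟩
    constructor
    rintro ⟨l₁, a1, b1⟩ ⟨l₂, a2, b2⟩
    obtain ⟨i, φ₁, rfl⟩ := hM.exists_factor (R := R) l₁
    obtain ⟨j, φ₂, rfl⟩ := hM.exists_factor (R := R) l₂
    ext : 1
    change Spec.map (CommRingCat.ofHom φ₁) ≫ c i = Spec.map (CommRingCat.ofHom φ₂) ≫ c j
    have h1 : Spec.map (CommRingCat.ofHom ((algebraMap R L).comp φ₁)) ≫ c i =
        Spec.map (CommRingCat.ofHom ((algebraMap R L).comp φ₂)) ≫ c j := by
      rw [CommRingCat.ofHom_comp, CommRingCat.ofHom_comp, Spec.map_comp, Spec.map_comp,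
        Category.assoc, Category.assoc]
      exact a1.trans a2.symm
    obtain ⟨χ, hχ1, hχ2⟩ := hM.exists_sup_hom (hG i j) _ _ h1
    have hinj := IsFractionRing.injective R L
    let N : Subalgebra k K :=
      { carrier := {z | ∃ hz : z ∈ A i ⊔ A j, ∃ r : R, χ ⟨z, hz⟩ = algebraMap R L r}
        mul_mem' := by
          rintro a b ⟨ha, r, hr⟩ ⟨hb, s, hs⟩
          refine ⟨mul_mem ha hb, r * s, ?_⟩
          rw [map_mul, ← hr, ← hs, ← map_mul]
          rfl
        add_mem' := by
          rintro a b ⟨ha, r, hr⟩ ⟨hb, s, hs⟩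
          refine ⟨add_mem ha hb, r + s, ?_⟩
          rw [map_add, ← hr, ← hs, ← map_add]
          rfl
        algebraMap_mem' := fun r => ⟨(A i ⊔ A j).algebraMap_mem r, φ₁ (algebraMap k (A i) r),
          hχ1 (algebraMap k (A i) r)⟩ }
    have hN : A i ⊔ A j ≤ N := by
      refine sup_le ?_ ?_
      · intro a ha
        exact ⟨(le_sup_left : A i ≤ A i ⊔ A j) ha, φ₁ ⟨a, ha⟩, hχ1 ⟨a, ha⟩⟩
      · intro a ha
        exact ⟨(le_sup_right : A j ≤ A i ⊔ A j) ha, φ₂ ⟨a, ha⟩, hχ2 ⟨a, ha⟩⟩
    have hex : ∀ z : ↥(A i ⊔ A j), ∃ r : R, χ z = algebraMap R L r := by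
      intro z
      obtain ⟨_, r, hr⟩ := hN z.2
      exact ⟨r, hr⟩
    choose δ hδ using hex
    let δ' : ↥(A i ⊔ A j) →+* R :=
      { toFun := δ
        map_one' := hinj (by rw [← hδ, map_one, map_one])
        map_mul' := fun x y => hinj (by rw [← hδ, map_mul, map_mul, ← hδ, ← hδ])
        map_zero' := hinj (by rw [← hδ, map_zero, map_zero])
        map_add' := fun x y => hinj (by rw [← hδ, map_add, map_add, ← hδ, ← hδ]) }
    have e1 : Spec.map (CommRingCat.ofHom δ') ≫ specIncl (le_sup_left : A i ≤ A i ⊔ A j) =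
        Spec.map (CommRingCat.ofHom φ₁) :=
      specMap_specIncl _ δ' φ₁ (fun b => hinj (by
        change algebraMap R L (δ _) = _
        rw [← hδ, hχ1]; rfl))
    have e2 : Spec.map (CommRingCat.ofHom δ') ≫ specIncl (le_sup_right : A j ≤ A i ⊔ A j) =
        Spec.map (CommRingCat.ofHom φ₂) :=
      specMap_specIncl _ δ' φ₂ (fun b => hinj (by
        change algebraMap R L (δ _) = _
        rw [← hδ, hχ2]; rfl))
    rw [← e1, ← e2, Category.assoc, Category.assoc, hM.compat]

end Proper

end Helper50.D71
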