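import Pool.Agent.Helper50.D71.Geo

/-!
# MP_d71e86_ag : closed integral subschemes from points
-/

open AlgebraicGeometry CategoryTheory TopologicalSpace

universe u

namespace Helper50.D71

theorem exists_closedSubscheme {X : Scheme.{u}} (x : X) :
    ∃ (C : Scheme.{u}) (j : C ⟶ X), IsClosedImmersion j ∧ IsIntegral C ∧
      Set.range j = closure {x} := by
  have hss : Subsingleton (Spec (X.residueField x)) := inferInstance
  have hqc : QuasiCompact (X.fromSpecResidueField x) :=
    ⟨fun U _ _ => (Set.subsingleton_of_subsingleton (α := Spec (X.residueField x))).finite.isCompact⟩
  generalize hf : X.fromSpecResidueField x = f at hqc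
  have hr : Set.range f = {x} := by
    rw [← hf]
    exact Scheme.range_fromSpecResidueField x
  refine ⟨f.image, f.imageι, inferInstance, ?_, ?_⟩
  · have hred : IsReduced f.image := by
      have (U : X.affineOpens) : IsReduced (f.ker.subschemeCover.openCover.X U) := by
        have : _root_.IsReduced (Γ(X, U.1) ⧸ f.ker.ideal U) := by
          have h1 : f.ker.ideal U = RingHom.ker (f.app U).hom := Scheme.Hom.ker_apply f U
          rw [h1]
          exact isReduced_of_injective (RingHom.kerLift (f.app U).hom)
            (RingHom.kerLift_injective (f.app U).hom)
        have h2 : IsReduced (Spec (.of (Γ(X, U.1) ⧸ f.ker.ideal U))) := inferInstance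
        exact h2
      have hall : ∀ i, IsReduced (f.ker.subschemeCover.openCover.X i) := fun i => this i
      exact .of_openCover _ f.ker.subschemeCover.openCover
    have hirr : IrreducibleSpace f.image := by
      rw [irreducibleSpace_def]
      have hd : DenseRange f.toImage := IsDominant.denseRange
      have h3 := ((IrreducibleSpace.isIrreducible_univ (Spec (X.residueField x))).image _
          f.toImage.continuous.continuousOn).closure
      rwa [Set.image_univ, hd.closure_range] at h3
    exact isIntegral_of_irreducibleSpace_of_isReduced _
  · rw [Scheme.IdealSheafData.range_subschemeι, Scheme.Hom.support_ker, hr]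

end Helper50.D71
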