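import Pool.Agent.Helper83.D71.Model

/-!
# MP_d71e86_ag, block G2, algebraic part : extending a point of a chart to a valuation ring
-/

universe u

namespace Helper50.D71

section Core

variable {k : Type u} [Field k] {K : Type u} [Field K] [Algebra k K]
variable {B : Subalgebra k K} {L : Type u} [Field L] (γ : B →+* L)

/-- the graph of the extension of `γ` to the local ring at the kernel. -/
def Rel (z : K) (w : L) : Prop :=
  ∃ a b : B, γ b ≠ 0 ∧ z * b = a ∧ w * γ b = γ a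

variable {γ}

lemma Rel.unique {z : K} {w w' : L} (h : Rel γ z w) (h' : Rel γ z w') : w = w' := by
  obtain ⟨a, b, hb, h1, h2⟩ := h
  obtain ⟨a', b', hb', h1', h2'⟩ := h'
  have e : a * b' = a' * b := by
    apply Subtype.ext
    push_cast
    rw [← h1, ← h1']
    ring
  have e2 : γ a * γ b' = γ a' * γ b := by rw [← map_mul, ← map_mul, e]
  rw [← h2, ← h2'] at e2
  have h3 : w * (γ b * γ b') = w' * (γ b * γ b') := by linear_combination e2
  exact mul_right_cancel₀ (mul_ne_zero hb hb') h3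

lemma rel_of (a : B) : Rel γ (a : K) (γ a) := ⟨a, 1, by simp, by simp, by simp⟩

lemma rel_one : Rel γ (1 : K) (1 : L) := by
  have := rel_of (γ := γ) (1 : B)
  simpa using this

lemma rel_zero : Rel γ (0 : K) (0 : L) := by
  have := rel_of (γ := γ) (0 : B)
  simpa using this

lemma Rel.mul {z z' : K} {w w' : L} (h : Rel γ z w) (h' : Rel γ z' w') :
    Rel γ (z * z') (w * w') := by
  obtain ⟨a, b, hb, h1, h2⟩ := h
  obtain ⟨a', b', hb', h1', h2'⟩ := h'
  refine ⟨a * a', b * b', by rw [map_mul]; exact mul_ne_zero hb hb', ?_, ?_⟩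
  · push_cast
    rw [← h1, ← h1']; ring
  · rw [map_mul, map_mul, ← h2, ← h2']; ring

lemma Rel.add {z z' : K} {w w' : L} (h : Rel γ z w) (h' : Rel γ z' w') :
    Rel γ (z + z') (w + w') := by
  obtain ⟨a, b, hb, h1, h2⟩ := h
  obtain ⟨a', b', hb', h1', h2'⟩ := h'
  refine ⟨a * b' + a' * b, b * b', by rw [map_mul]; exact mul_ne_zero hb hb', ?_, ?_⟩
  · push_cast
    rw [← h1, ← h1']; ring
  · rw [map_mul, map_add, map_mul, map_mul, ← h2, ← h2']; ring

lemma Rel.neg {z : K} {w : L} (h : Rel γ z w) : Rel γ (-z) (-w) := by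
  have := (rel_of (γ := γ) (-1 : B)).mul h
  simpa using this

lemma Rel.inv {z : K} {w : L} (h : Rel γ z w) (hw : w ≠ 0) : Rel γ z⁻¹ w⁻¹ := by
  obtain ⟨a, b, hb, h1, h2⟩ := h
  have ha : γ a ≠ 0 := by rw [← h2]; exact mul_ne_zero hw hb
  have hz : z ≠ 0 := by
    rintro rfl
    apply ha
    have : a = 0 := by
      apply Subtype.ext
      rw [← h1]; simp
    rw [this, map_zero]
  refine ⟨b, a, ha, ?_, ?_⟩
  · rw [← h1, ← mul_assoc, inv_mul_cancel₀ hz, one_mul]
  · rw [← h2, ← mul_assoc, inv_mul_cancel₀ hw, one_mul]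

lemma Rel.pow {z : K} {w : L} (h : Rel γ z w) (n : ℕ) : Rel γ (z ^ n) (w ^ n) := by
  induction n with
  | zero => simpa using rel_one
  | succ n ih => rw [pow_succ, pow_succ]; exact ih.mul h

variable {R : Type u} [CommRing R] [IsDomain R] [ValuationRing R] [Algebra R L]
  [IsFractionRing R L]

variable (γ R) in
/-- elements of the local ring with value in `R`. -/
def CC : Subring K where
  carrier := {z | ∃ r : R, Rel γ z (algebraMap R L r)}
  mul_mem' := by
    rintro a b ⟨r, hr⟩ ⟨s, hs⟩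
    exact ⟨r * s, by rw [map_mul]; exact hr.mul hs⟩
  one_mem' := ⟨1, by rw [map_one]; exact rel_one⟩
  add_mem' := by
    rintro a b ⟨r, hr⟩ ⟨s, hs⟩
    exact ⟨r + s, by rw [map_add]; exact hr.add hs⟩
  zero_mem' := ⟨0, by rw [map_zero]; exact rel_zero⟩
  neg_mem' := by
    rintro a ⟨r, hr⟩
    exact ⟨-r, by rw [map_neg]; exact hr.neg⟩

variable (γ R) in
/-- elements of the local ring with value in the maximal ideal of `R`. -/
def II : Ideal (CC γ R) where
  carrier := {z | ∃ r ∈ IsLocalRing.maximalIdeal R, Rel γ (z : K) (algebraMap R L r)}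
  add_mem' := by
    rintro a b ⟨r, hr, hr'⟩ ⟨s, hs, hs'⟩
    exact ⟨r + s, add_mem hr hs, by rw [map_add]; exact hr'.add hs'⟩
  zero_mem' := ⟨0, zero_mem _, by rw [map_zero]; exact rel_zero⟩
  smul_mem' := by
    rintro ⟨c, s, hs⟩ a ⟨r, hr, hr'⟩
    exact ⟨s * r, Ideal.mul_mem_left _ _ hr, by rw [map_mul]; exact hs.mul hr'⟩

lemma II_ne_top : II γ R ≠ ⊤ := by
  rw [Ideal.ne_top_iff_one]
  rintro ⟨r, hr, hr'⟩
  have h1 : algebraMap R L r = 1 := hr'.unique rel_one
  have h2 : r = 1 := IsFractionRing.injective R L (by rw [h1, map_one])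
  rw [h2] at hr
  exact (Ideal.ne_top_iff_one _).mp (IsLocalRing.maximalIdeal.isMaximal R).ne_top hr

/-- every element of `L` is in `R`, or its inverse is in the maximal ideal. -/
lemma mem_or_inv (w : L) : (∃ r : R, algebraMap R L r = w) ∨
    (w ≠ 0 ∧ ∃ r ∈ IsLocalRing.maximalIdeal R, algebraMap R L r = w⁻¹) := by
  rcases ValuationRing.isInteger_or_isInteger R w with h | h
  · left; exact h
  · obtain ⟨r, hr⟩ := h
    by_cases hu : IsUnit r
    · left
      obtain ⟨s, hs⟩ := hu.exists_left_inv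
      refine ⟨s, ?_⟩
      have : algebraMap R L s * w⁻¹ = 1 := by rw [← hr, ← map_mul, hs, map_one]
      exact eq_of_mul_inv_eq_one this
    · by_cases hw : w = 0
      · left; exact ⟨0, by rw [hw, map_zero]⟩
      · right
        exact ⟨hw, r, (IsLocalRing.mem_maximalIdeal r).mpr hu, hr⟩

omit [IsFractionRing R L] in
lemma inv_mem_II {z : K} {w : L} (h : Rel γ z w) (hw : w ≠ 0)
    (hr : ∃ r ∈ IsLocalRing.maximalIdeal R, algebraMap R L r = w⁻¹) :
    ∃ c : CC γ R, (c : K) = z⁻¹ ∧ c ∈ II γ R := by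
  obtain ⟨r, hr, hr'⟩ := hr
  have h1 : Rel γ z⁻¹ (algebraMap R L r) := by rw [hr']; exact h.inv hw
  exact ⟨⟨z⁻¹, r, h1⟩, rfl, r, hr, h1⟩

/-- a valuation ring of `K` dominating `CC`. -/
lemma exists_val (κ : k →+* R)
    (hκ : ∀ r : k, γ (algebraMap k B r) = algebraMap R L (κ r)) :
    ∃ V : ValuationSubring K, (∀ r : k, algebraMap k K r ∈ V) ∧
      (∀ z ∈ CC γ R, z ∈ V) ∧ (∀ z : CC γ R, z ∈ II γ R → (z : K) = 0 ∨ (z : K)⁻¹ ∉ V) := by
  obtain ⟨V, hV1, hV2⟩ := Ideal.image_subset_nonunits_valuationSubring (II γ R) II_ne_top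
  refine ⟨V, ?_, fun z hz => hV1 hz, ?_⟩
  · intro r
    apply hV1
    refine ⟨κ r, ?_⟩
    rw [← hκ]
    exact rel_of (algebraMap k B r)
  · intro z hz
    have := hV2 ⟨z, hz, rfl⟩
    exact (ValuationSubring.mem_nonunits_iff_or V).mp this

/-- main algebraic statement: if `D ≤ V` and `B ⊔ D = B[1/f]`, then `γ` extends to `B ⊔ D` with
values in `R` on `D`. -/
lemma core (κ : k →+* R) (hκ : ∀ r : k, γ (algebraMap k B r) = algebraMap R L (κ r))
    (V : ValuationSubring K) (hC : ∀ z ∈ CC γ R, z ∈ V)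
    (hI : ∀ z : CC γ R, z ∈ II γ R → (z : K) = 0 ∨ (z : K)⁻¹ ∉ V)
    (D : Subalgebra k K) (hD : ∀ x ∈ D, x ∈ V) (hBD : IsLocOf B (B ⊔ D)) :
    ∃ (ψ : ↥(B ⊔ D) →+* L) (δ : D →+* R),
      (∀ a : B, ψ (Subalgebra.inclusion le_sup_left a) = γ a) ∧
      (∀ b : D, ψ (Subalgebra.inclusion le_sup_right b) = algebraMap R L (δ b)) := by
  obtain ⟨f, hfB, hf0, hfC, hBC, hCB⟩ := hBD
  have hkC : ∀ r : k, algebraMap k K r ∈ CC γ R := fun r =>
    ⟨κ r, by rw [← hκ]; exact rel_of (algebraMap k B r)⟩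
  -- the localized valuation ring
  let M : Subalgebra k K :=
    { carrier := {z | ∃ s : K, ∃ t : R, Rel γ s (algebraMap R L t) ∧ t ≠ 0 ∧ s * z ∈ V}
      mul_mem' := by
        rintro a b ⟨s, t, h1, h2, h3⟩ ⟨s', t', h1', h2', h3'⟩
        refine ⟨s * s', t * t', by rw [map_mul]; exact h1.mul h1', mul_ne_zero h2 h2', ?_⟩
        have : s * s' * (a * b) = (s * a) * (s' * b) := by ring
        rw [this]
        exact mul_mem h3 h3'
      add_mem' := by
        rintro a b ⟨s, t, h1, h2, h3⟩ ⟨s', t', h1', h2', h3'⟩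
        refine ⟨s * s', t * t', by rw [map_mul]; exact h1.mul h1', mul_ne_zero h2 h2', ?_⟩
        have : s * s' * (a + b) = s' * (s * a) + s * (s' * b) := by ring
        rw [this]
        exact add_mem (mul_mem (hC _ ⟨t', h1'⟩) h3) (mul_mem (hC _ ⟨t, h1⟩) h3')
      algebraMap_mem' := fun r => ⟨1, 1, by rw [map_one]; exact rel_one, one_ne_zero, by
        rw [one_mul]; exact hC _ (hkC r)⟩ }
  have hDM : D ≤ M := fun x hx => ⟨1, 1, by rw [map_one]; exact rel_one, one_ne_zero, by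
    rw [one_mul]; exact hD x hx⟩
  have hBM : B ≤ M := by
    intro a ha
    rcases mem_or_inv (R := R) (γ ⟨a, ha⟩) with ⟨r, hr⟩ | ⟨h0, r, hr, hr'⟩
    · refine ⟨1, 1, by rw [map_one]; exact rel_one, one_ne_zero, ?_⟩
      rw [one_mul]
      apply hC
      refine ⟨r, ?_⟩
      rw [hr]
      exact rel_of (⟨a, ha⟩ : B)
    · have h1 := (rel_of (γ := γ) (⟨a, ha⟩ : B)).inv h0
      rw [← hr'] at h1
      refine ⟨a⁻¹, r, h1, ?_, ?_⟩
      · rintro rfl
        rw [map_zero] at hr'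
        exact h0 (by rw [← inv_inv (γ ⟨a, ha⟩), ← hr', inv_zero])
      · have ha0 : a ≠ 0 := by
          rintro rfl
          apply h0
          have : (⟨0, ha⟩ : B) = 0 := rfl
          rw [this, map_zero]
        rw [inv_mul_cancel₀ ha0]
        exact one_mem V
  -- `f` is not in the kernel
  have hγf : γ ⟨f, hfB⟩ ≠ 0 := by
    intro h0
    obtain ⟨s, t, h1, h2, h3⟩ := (sup_le hBM hDM : B ⊔ D ≤ M) hfC
    have ht : algebraMap R L t ≠ 0 := fun h => h2 (IsFractionRing.injective R L (by rw [h, map_zero]))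
    have h4 : Rel γ (f * s⁻¹) (algebraMap R L 0) := by
      have := (rel_of (γ := γ) (⟨f, hfB⟩ : B)).mul (h1.inv ht)
      rw [h0, zero_mul] at this
      rw [map_zero]
      exact this
    have hs0 : s ≠ 0 := by
      rintro rfl
      exact ht (h1.unique rel_zero)
    rcases hI ⟨f * s⁻¹, 0, h4⟩ ⟨0, zero_mem _, h4⟩ with h5 | h5
    · exact mul_ne_zero hf0 (inv_ne_zero hs0) h5
    · apply h5
      have : (f * s⁻¹)⁻¹ = s * f⁻¹ := by rw [mul_inv, inv_inv, mul_comm]
      change (f * s⁻¹)⁻¹ ∈ V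
      rw [this]
      exact h3
  -- extension to `B ⊔ D`
  have hex : ∀ z : ↥(B ⊔ D), ∃ w : L, Rel γ (z : K) w := by
    intro z
    obtain ⟨n, hn⟩ := exists_mul_pow_mem hfB hf0 (hCB z.2)
    refine ⟨γ ⟨_, hn⟩ / γ ⟨f, hfB⟩ ^ n, ⟨_, hn⟩, ⟨f, hfB⟩ ^ n, ?_, ?_, ?_⟩
    · rw [map_pow]; exact pow_ne_zero _ hγf
    · push_cast; rfl
    · rw [map_pow, div_mul_cancel₀ _ (pow_ne_zero _ hγf)]
  choose ψ hψ using hex
  let ψ' : ↥(B ⊔ D) →+* L :=
    { toFun := ψ
      map_one' := (hψ 1).unique (by simpa using rel_one)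
      map_mul' := fun x y => (hψ (x * y)).unique (by simpa using (hψ x).mul (hψ y))
      map_zero' := (hψ 0).unique (by simpa using rel_zero)
      map_add' := fun x y => (hψ (x + y)).unique (by simpa using (hψ x).add (hψ y)) }
  have hex2 : ∀ x : D, ∃ r : R, ψ (Subalgebra.inclusion le_sup_right x) = algebraMap R L r := by
    intro x
    rcases mem_or_inv (R := R) (ψ (Subalgebra.inclusion le_sup_right x)) with ⟨r, hr⟩ | ⟨h0, h1⟩
    · exact ⟨r, hr.symm⟩
    · exfalso
      have h2 : Rel γ (x : K) (ψ (Subalgebra.inclusion le_sup_right x)) :=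
        hψ (Subalgebra.inclusion (le_sup_right : D ≤ B ⊔ D) x)
      obtain ⟨c, hc, hcI⟩ := inv_mem_II (R := R) h2 h0 h1
      have hx0 : (x : K) ≠ 0 := by
        intro h
        apply h0
        rw [h] at h2
        exact h2.unique rel_zero
      rcases hI c hcI with h3 | h3
      · rw [hc] at h3
        exact inv_ne_zero hx0 h3
      · apply h3
        rw [hc, inv_inv]
        exact hD x x.2
  choose δ hδ using hex2
  have hinj := IsFractionRing.injective R L
  let δ' : D →+* R :=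
    { toFun := δ
      map_one' := hinj (by rw [← hδ, map_one, map_one]; exact map_one ψ')
      map_mul' := fun x y => hinj (by
        rw [← hδ, map_mul, map_mul, ← hδ, ← hδ]; exact map_mul ψ' _ _)
      map_zero' := hinj (by rw [← hδ, map_zero, map_zero]; exact map_zero ψ')
      map_add' := fun x y => hinj (by
        rw [← hδ, map_add, map_add, ← hδ, ← hδ]; exact map_add ψ' _ _) }
  exact ⟨ψ', δ', fun a => (hψ _).unique (rel_of a), hδ⟩

end Core

end Helper50.D71
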