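import Pool.Agent.Helper50.D71.Geo

/-!
# MP_d71e86_ag, block G1 : gluing of the spectra of subalgebras of a field
-/

open AlgebraicGeometry CategoryTheory CategoryTheory.Limits

universe u

namespace Helper50.D71

section Incl

variable {k : Type u} [Field k] {K : Type u} [Field K] [Algebra k K]

lemma specIncl_comp {A B C : Subalgebra k K} (h : A ≤ B) (h' : B ≤ C) :
    specIncl h' ≫ specIncl h = specIncl (h.trans h') := by
  unfold specIncl
  rw [← Spec.map_comp]
  rfl

lemma specIncl_refl (A : Subalgebra k K) (h : A ≤ A) : specIncl h = 𝟙 _ := by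
  unfold specIncl
  rw [← Spec.map_id]
  rfl

lemma specIncl_comp_algebraMap {A B : Subalgebra k K} (h : A ≤ B) :
    specIncl h ≫ Spec.map (CommRingCat.ofHom (algebraMap k A)) =
      Spec.map (CommRingCat.ofHom (algebraMap k B)) := by
  unfold specIncl
  rw [← Spec.map_comp]
  rfl

/-- `C = B[1/f]` as rings. -/
lemma isLocalizationAway_of {B C : Subalgebra k K} (hBC : B ≤ C) (f : K) (hfB : f ∈ B)
    (hf0 : f ≠ 0) (hfC : f⁻¹ ∈ C) (hCB : C ≤ B ⊔ Algebra.adjoin k {f⁻¹}) :
    @IsLocalization.Away B _ (⟨f, hfB⟩ : B) C _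
      (Subalgebra.inclusion hBC).toRingHom.toAlgebra := by
  let : Algebra B C := (Subalgebra.inclusion hBC).toRingHom.toAlgebra
  have hmap : ∀ b : B, ((algebraMap B C b : C) : K) = (b : K) := fun _ => rfl
  refine IsLocalization.Away.mk _ ?_ ?_ ?_
  · refine IsUnit.of_mul_eq_one ⟨f⁻¹, hfC⟩ ?_
    apply Subtype.ext
    simp [hmap, hf0]
  · intro c
    obtain ⟨n, hn⟩ := exists_mul_pow_mem hfB hf0 (hCB c.2)
    refine ⟨n, ⟨_, hn⟩, ?_⟩
    apply Subtype.ext
    simp [hmap]
  · intro a b hab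
    refine ⟨0, ?_⟩
    have : (a : K) = b := by rw [← hmap a, ← hmap b, hab]
    rw [Subtype.ext this]

lemma isOpenImmersion_specIncl {B C : Subalgebra k K} (h : IsLocOf B C) (hBC : B ≤ C) :
    IsOpenImmersion (specIncl hBC) := by
  obtain ⟨f, hfB, hf0, hfC, _, hCB⟩ := h
  let : Algebra B C := (Subalgebra.inclusion hBC).toRingHom.toAlgebra
  have : IsLocalization.Away (⟨f, hfB⟩ : B) C :=
    isLocalizationAway_of hBC f hfB hf0 hfC hCB
  exact IsOpenImmersion.of_isLocalization (R := B) (S := C) (⟨f, hfB⟩ : B)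

/-- the prime ideal of a point of `Spec B`. -/
def idl {B : Subalgebra k K} (p : Spec (.of B)) : Ideal B := PrimeSpectrum.asIdeal (R := B) p

/-- a point `p` of `Spec B` lifts to `Spec C`, `C = B[1/f]`, if `f ∉ p`. -/
lemma mem_range_specIncl {B C : Subalgebra k K} (hBC : B ≤ C) {f : K} (hfB : f ∈ B)
    (hf0 : f ≠ 0) (hfC : f⁻¹ ∈ C) (hCB : C ≤ B ⊔ Algebra.adjoin k {f⁻¹})
    (p : Spec (.of B)) :
    p ∈ Set.range (specIncl hBC) ↔ (⟨f, hfB⟩ : B) ∉ idl p := by
  let : Algebra B C := (Subalgebra.inclusion hBC).toRingHom.toAlgebra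
  have : IsLocalization.Away (⟨f, hfB⟩ : B) C :=
    isLocalizationAway_of hBC f hfB hf0 hfC hCB
  have h := PrimeSpectrum.localization_away_comap_range (R := B) C (⟨f, hfB⟩ : B)
  have h2 : Set.range (specIncl hBC) = Set.range (PrimeSpectrum.comap (algebraMap B C)) := rfl
  rw [h2, h]
  rfl

lemma IsLocOf.sup_right {B C D : Subalgebra k K} (h₁ : IsLocOf B C) (h₂ : IsLocOf B D) :
    IsLocOf B (C ⊔ D) := h₁.trans (by
  have := h₂.sup h₁.le
  rwa [sup_comm] at this)

/-- intersection of two principal open subsets. -/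
lemma exists_sup_point {B C D : Subalgebra k K} (h₁ : IsLocOf B C) (h₂ : IsLocOf B D)
    (p : Spec (.of C)) (q : Spec (.of D))
    (hpq : specIncl h₁.le p = specIncl h₂.le q) :
    ∃ r : Spec (.of ↥(C ⊔ D)),
      specIncl (le_sup_left : C ≤ C ⊔ D) r = p ∧ specIncl (le_sup_right : D ≤ C ⊔ D) r = q := by
  obtain ⟨g, hgB, hg0, hgD, hBD, hDB⟩ := id h₂
  have hBC := h₁.le
  have hgC : (C ⊔ D : Subalgebra k K) ≤ C ⊔ Algebra.adjoin k {g⁻¹} :=
    sup_le le_sup_left (hDB.trans (sup_le_sup_right hBC _))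
  have hg : p ∈ Set.range (specIncl (le_sup_left : C ≤ C ⊔ D)) := by
    rw [mem_range_specIncl le_sup_left (hBC hgB) hg0
      ((le_sup_right : D ≤ C ⊔ D) hgD) hgC p]
    have h3 : specIncl h₂.le q ∈ Set.range (specIncl h₂.le) := ⟨q, rfl⟩
    rw [mem_range_specIncl h₂.le hgB hg0 hgD hDB, ← hpq] at h3
    exact h3
  obtain ⟨r, hr⟩ := hg
  refine ⟨r, hr, ?_⟩
  have hopen := isOpenImmersion_specIncl h₂ h₂.le
  apply (specIncl h₂.le).isOpenEmbedding.injective
  rw [← hpq, ← hr, ← Scheme.Hom.comp_apply, ← Scheme.Hom.comp_apply, specIncl_comp, specIncl_comp]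

end Incl

section Glue

variable {k : Type u} [Field k] {K : Type u} [Field K] [Algebra k K]
variable {ι : Type} (A : ι → Subalgebra k K)

/-- nonempty finite sets of indices, ordered by reverse inclusion. -/
abbrev JJ (ι : Type) : Type := {S : Finset ι // S.Nonempty}ᵒᵈ

/-- the compositum of the algebras `A i`, `i ∈ S`. -/
noncomputable def AS (S : JJ ι) : Subalgebra k K := (OrderDual.ofDual S).1.sup A

lemma AS_mono {S T : JJ ι} (h : S ≤ T) : AS A T ≤ AS A S :=
  Finset.sup_mono (show (OrderDual.ofDual T).1 ≤ (OrderDual.ofDual S).1 from h)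

lemma le_AS {S : JJ ι} {i : ι} (h : i ∈ (OrderDual.ofDual S).1) : A i ≤ AS A S :=
  Finset.le_sup (f := A) h

/-- singletons -/
def sing (i : ι) : JJ ι := OrderDual.toDual ⟨{i}, Finset.singleton_nonempty i⟩

lemma AS_sing (i : ι) : AS A (sing i) = A i := by
  simp [AS, sing]

variable {A}

lemma isLocOf_sup (hG : ∀ i j, Good (A i) (A j)) (i : ι) (S : Finset ι) :
    IsLocOf (A i) (A i ⊔ S.sup A) := by
  classical
  induction S using Finset.induction_on with
  | empty => simp [IsLocOf.refl]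
  | insert j S hj ih =>
    have h := (hG i j).1.sup_right ih
    have e : A i ⊔ A j ⊔ (A i ⊔ S.sup A) = A i ⊔ (insert j S).sup A := by
      rw [Finset.sup_insert]
      apply le_antisymm
      · exact sup_le (sup_le le_sup_left (le_sup_left.trans le_sup_right))
          (sup_le le_sup_left (le_sup_right.trans le_sup_right))
      · exact sup_le (le_sup_left.trans le_sup_left)
          (sup_le (le_sup_right.trans le_sup_left) (le_sup_right.trans le_sup_right))
    rwa [e] at h

lemma isLocOf_AS (hG : ∀ i j, Good (A i) (A j)) {S T : JJ ι} (h : S ≤ T) :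
    IsLocOf (AS A T) (AS A S) := by
  obtain ⟨i, hi⟩ := (OrderDual.ofDual T).2
  have hiS : i ∈ (OrderDual.ofDual S).1 :=
    (show (OrderDual.ofDual T).1 ≤ (OrderDual.ofDual S).1 from h) hi
  have h1 := isLocOf_sup hG i (OrderDual.ofDual S).1
  have e : A i ⊔ (OrderDual.ofDual S).1.sup A = AS A S := sup_eq_right.mpr (le_AS A hiS)
  rw [e] at h1
  exact h1.of_le (le_AS A hi) (AS_mono A h)

variable (A)

/-- the diagram of the spectra. -/
noncomputable def FF : JJ ι ⥤ Scheme.{u} where
  obj S := Spec (.of (AS A S))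
  map h := specIncl (AS_mono A (leOfHom h))
  map_id _ := specIncl_refl _ _
  map_comp _ _ := (specIncl_comp _ _).symm

variable {A}

lemma FF_open (hG : ∀ i j, Good (A i) (A j)) {S T : JJ ι} (h : S ⟶ T) :
    IsOpenImmersion ((FF A).map h) :=
  isOpenImmersion_specIncl (isLocOf_AS hG (leOfHom h)) _

lemma FF_dir (hG : ∀ i j, Good (A i) (A j)) :
    ((FF A) ⋙ Scheme.forget).IsLocallyDirected := by
  classical
  constructor
  intro S T U hS hT p q hpq
  let l : JJ ι := OrderDual.toDual ⟨(OrderDual.ofDual S).1 ∪ (OrderDual.ofDual T).1,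
    Finset.Nonempty.inl (OrderDual.ofDual S).2⟩
  have hlS : l ≤ S := by
    change (OrderDual.ofDual S).1 ≤ (OrderDual.ofDual S).1 ∪ (OrderDual.ofDual T).1
    exact Finset.subset_union_left
  have hlT : l ≤ T := by
    change (OrderDual.ofDual T).1 ≤ (OrderDual.ofDual S).1 ∪ (OrderDual.ofDual T).1
    exact Finset.subset_union_right
  obtain ⟨r, hr1, hr2⟩ := exists_sup_point (isLocOf_AS hG (leOfHom hS)) (isLocOf_AS hG (leOfHom hT))
    p q hpq
  have e : AS A l = AS A S ⊔ AS A T := by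
    unfold AS
    exact Finset.sup_union
  refine ⟨l, homOfLE hlS, homOfLE hlT, specIncl e.le r, ?_, ?_⟩
  · change specIncl (AS_mono A hlS) (specIncl e.le r) = p
    rw [← hr1, ← Scheme.Hom.comp_apply, specIncl_comp]
  · change specIncl (AS_mono A hlT) (specIncl e.le r) = q
    rw [← hr2, ← Scheme.Hom.comp_apply, specIncl_comp]

variable (A) in
/-- the structure morphisms. -/
noncomputable def baseCocone : Cocone (FF A) where
  pt := Spec (.of k)
  ι :=
    { app := fun S => Spec.map (CommRingCat.ofHom (algebraMap k (AS A S)))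
      naturality := by
        intro S T h
        simp only [Functor.const_obj_obj, Functor.const_obj_map]
        exact specIncl_comp_algebraMap _ }

/-- the colimit of the diagram, spelled out. -/
lemma exists_glued {ι : Type} [Finite ι] (A : ι → Subalgebra k K)
    (hG : ∀ i j, Good (A i) (A j)) :
    ∃ (X : Scheme.{u}) (f : X ⟶ Spec (.of k)) (d : ∀ S : JJ ι, Spec (.of (AS A S)) ⟶ X),
      (∀ S, IsOpenImmersion (d S)) ∧
      (∀ (S T : JJ ι) (h : S ≤ T), specIncl (AS_mono A h) ≫ d T = d S) ∧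
      (∀ S, d S ≫ f = Spec.map (CommRingCat.ofHom (algebraMap k (AS A S)))) ∧
      (∀ x : X, ∃ (S : JJ ι) (y : Spec (.of (AS A S))), d S y = x) ∧
      (∀ (S T : JJ ι) (p : Spec (.of (AS A S))) (q : Spec (.of (AS A T))), d S p = d T q →
        ∃ (U : JJ ι) (hS : U ≤ S) (hT : U ≤ T) (z : Spec (.of (AS A U))),
          specIncl (AS_mono A hS) z = p ∧ specIncl (AS_mono A hT) z = q) := by
  have i1 : ∀ {S T : JJ ι} (h : S ⟶ T), IsOpenImmersion ((FF A).map h) := fun h => FF_open hG h
  have i2 : ((FF A) ⋙ Scheme.forget).IsLocallyDirected := FF_dir hG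
  have i3 : Small.{u} (JJ ι) := inferInstance
  have hopen : ∀ S : JJ ι, IsOpenImmersion (colimit.ι (FF A) S) := fun S => inferInstance
  refine ⟨colimit (FF A), colimit.desc (FF A) (baseCocone A), fun S => colimit.ι (FF A) S,
    hopen, fun S T h => colimit.w (FF A) (homOfLE h), fun S => colimit.ι_desc _ _,
    Scheme.IsLocallyDirected.ι_jointly_surjective (FF A), ?_⟩
  intro S T p q hpq
  obtain ⟨U, hS, hT, z, h1, h2⟩ := (Scheme.IsLocallyDirected.ι_eq_ι_iff (FF A)).mp hpq
  exact ⟨U, leOfHom hS, leOfHom hT, z, h1, h2⟩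

/-- **G1** : the model exists. -/
theorem exists_model {ι : Type} [Finite ι] (A : ι → Subalgebra k K)
    (hG : ∀ i j, Good (A i) (A j)) :
    ∃ (X : Scheme.{u}) (f : X ⟶ Spec (.of k)) (c : ∀ i, Spec (.of (A i)) ⟶ X),
      IsModel A X f c := by
  classical
  obtain ⟨X, f, d, hopen, hc, hf, hsurj, hinj⟩ := exists_glued A hG
  let c : ∀ i, Spec (.of (A i)) ⟶ X := fun i => specIncl (AS_sing A i).le ≫ d (sing i)
  have hiso : ∀ i, IsIso (specIncl (AS_sing A i).le) := fun i => by
    refine ⟨specIncl (AS_sing A i).ge, ?_, ?_⟩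
    · rw [specIncl_comp, specIncl_refl]
    · rw [specIncl_comp, specIncl_refl]
  -- the composite through any larger set
  have hcS : ∀ (i : ι) (S : JJ ι) (hi : i ∈ (OrderDual.ofDual S).1),
      specIncl (le_AS A hi) ≫ c i = d S := by
    intro i S hi
    have h : S ≤ sing i := by
      change ({i} : Finset ι) ≤ (OrderDual.ofDual S).1
      simpa using hi
    change specIncl (le_AS A hi) ≫ specIncl (AS_sing A i).le ≫ d (sing i) = d S
    rw [← hc S _ h, ← Category.assoc, specIncl_comp]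
  have hpt : ∀ (i : ι) (S : JJ ι) (hi : i ∈ (OrderDual.ofDual S).1) (x : Spec (.of (AS A S))),
      c i (specIncl (le_AS A hi) x) = d S x := by
    intro i S hi x
    rw [← hcS i S hi]
    rfl
  refine ⟨X, f, c, ?_, ?_, ?_, ?_, ?_⟩
  · intro i
    have := hiso i
    have := hopen (sing i)
    change IsOpenImmersion (specIncl (AS_sing A i).le ≫ d (sing i))
    infer_instance
  · intro x
    obtain ⟨S, y, rfl⟩ := hsurj x
    obtain ⟨i, hi⟩ := (OrderDual.ofDual S).2
    exact ⟨i, _, hpt i S hi y⟩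
  · intro i
    change (specIncl (AS_sing A i).le ≫ d (sing i)) ≫ _ = _
    rw [Category.assoc, hf]
    exact specIncl_comp_algebraMap _
  · intro i j
    let S : JJ ι := OrderDual.toDual ⟨{i, j}, ⟨i, by simp⟩⟩
    have hi : i ∈ (OrderDual.ofDual S).1 := by simp [S]
    have hj : j ∈ (OrderDual.ofDual S).1 := by simp [S]
    have e : AS A S ≤ A i ⊔ A j := by
      unfold AS
      simp [S]
    have h1 : specIncl (le_sup_left : A i ≤ A i ⊔ A j) = specIncl e ≫ specIncl (le_AS A hi) := by
      rw [specIncl_comp]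
    have h2 : specIncl (le_sup_right : A j ≤ A i ⊔ A j) = specIncl e ≫ specIncl (le_AS A hj) := by
      rw [specIncl_comp]
    rw [h1, h2, Category.assoc, Category.assoc, hcS i S hi, hcS j S hj]
  · rintro i j x ⟨⟨p, hp⟩, ⟨q, hq⟩⟩
    have hpq : d (sing i) (specIncl (AS_sing A i).le p) =
        d (sing j) (specIncl (AS_sing A j).le q) := hp.trans hq.symm
    obtain ⟨S, hSi, hSj, z, hz1, hz2⟩ := hinj _ _ _ _ hpq
    have hi : i ∈ (OrderDual.ofDual S).1 := by
      have : ({i} : Finset ι) ≤ (OrderDual.ofDual S).1 := hSi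
      simpa using this
    have hj : j ∈ (OrderDual.ofDual S).1 := by
      have : ({j} : Finset ι) ≤ (OrderDual.ofDual S).1 := hSj
      simpa using this
    have hle : A i ⊔ A j ≤ AS A S := sup_le (le_AS A hi) (le_AS A hj)
    refine ⟨specIncl hle z, ?_⟩
    have h3 : specIncl hle ≫ specIncl (le_sup_left : A i ≤ A i ⊔ A j) ≫ c i = d S := by
      rw [← Category.assoc, specIncl_comp, hcS i S hi]
    have h4 : (specIncl (le_sup_left : A i ≤ A i ⊔ A j) ≫ c i) (specIncl hle z) = d S z := by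
      rw [← h3]; rfl
    rw [h4, ← hp]
    change _ = d (sing i) (specIncl (AS_sing A i).le p)
    rw [← hz1, ← hc S _ hSi]
    rfl

end Glue

end Helper50.D71
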